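import Pool.Agent.Lib.MP_b6ecfd_co.Final16

/-!
Cyclic colourings of 3-polytopes: if every vertex of the core is paired, or is the end of a rung,
then `2 ⌊k/2⌋ + 2` colours suffice.
-/

set_option autoImplicit false

namespace Pool.Agent.Results.MP_b6ecfd_co.PairedCore

/-- three dimensional space. -/
abbrev E3 := EuclideanSpace ℝ (Fin 3)

/-- `S` is the vertex set of a convex polytope of dimension three. -/
def IsPolytope (S : Finset E3) : Prop :=
  affineSpan ℝ (S : Set E3) = ⊤ ∧ ∀ x ∈ S, x ∉ convexHull ℝ ((S : Set E3) \ {x})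

/-- `F` is (the vertex set of) a facet of the polytope with vertex set `S`. -/
def IsFacet (S : Finset E3) (F : Set E3) : Prop :=
  ∃ (ℓ : E3 →L[ℝ] ℝ) (c : ℝ), (∀ x ∈ S, ℓ x ≤ c) ∧ F = {x : E3 | x ∈ S ∧ ℓ x = c} ∧
    Module.finrank ℝ (vectorSpan ℝ F) = 2

/-- `t` colours suffice: the vertices of every facet with at most `k` vertices differ. -/
def Colorable (S : Finset E3) (k t : ℕ) : Prop :=
  ∃ col : E3 → Fin t, ∀ F : Set E3, IsFacet S F → F.ncard ≤ k → Set.InjOn col F

/-- the degree of a vertex: the number of facets through it. -/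
noncomputable def deg (S : Finset E3) (x : E3) : ℕ :=
  Set.ncard {F : Set E3 | IsFacet S F ∧ x ∈ F}

/-- `x` and `y` lie on a common facet with at most `k` vertices. -/
def Cofacial (S : Finset E3) (k : ℕ) (x y : E3) : Prop :=
  ∃ F : Set E3, IsFacet S F ∧ F.ncard ≤ k ∧ x ∈ F ∧ y ∈ F

/-- the core relative to `K`: the largest set of vertices in which each vertex outside `K` is
cofacial with at least `t` others of the set. -/
def core (S : Finset E3) (k t : ℕ) (K : Set E3) : Set E3 :=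
  {x : E3 | ∃ C : Set E3, C ⊆ S ∧ x ∈ C ∧
    ∀ y ∈ C, y ∈ K ∨ t ≤ Set.ncard {z : E3 | z ∈ C ∧ z ≠ y ∧ Cofacial S k y z}}

/-- the core vertices other than `x` which are cofacial with `x` and on neither `f` nor `g`. -/
def outside (S : Finset E3) (k t : ℕ) (K : Set E3) (x : E3) (f g : Set E3) : Set E3 :=
  {y : E3 | y ∈ core S k t K ∧ y ≠ x ∧ Cofacial S k x y ∧ y ∉ f ∧ y ∉ g}

/-- paired vertices: `x` lies on exactly two members `f` and `g` of `E`, at least two core
vertices lie on both, and at most one core vertex cofacial with `x` is on neither, or `x` has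
degree three and its third facet has at most five vertices. -/
def Paired (S : Finset E3) (k t : ℕ) (K : Set E3) (E : Set (Set E3)) (x : E3) : Prop :=
  ∃ f g : Set E3, f ≠ g ∧ {F : Set E3 | F ∈ E ∧ x ∈ F} = {f, g} ∧
    2 ≤ Set.ncard {y : E3 | y ∈ core S k t K ∧ y ∈ f ∧ y ∈ g} ∧
    (Set.ncard (outside S k t K x f g) ≤ 1 ∨
      (deg S x = 3 ∧ ∃ m : Set E3, IsFacet S m ∧ m ∉ E ∧ x ∈ m ∧ m.ncard ≤ 5))

/-- ends of rungs: `x` has degree three and lies on a member of `E` with `k` vertices and on two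
quadrilaterals which are not in `E`. -/
def RungEnd (S : Finset E3) (k : ℕ) (E : Set (Set E3)) (x : E3) : Prop :=
  deg S x = 3 ∧ ∃ f q r : Set E3, f ∈ E ∧ x ∈ f ∧ f.ncard = k ∧ q ≠ r ∧
    (IsFacet S q ∧ q ∉ E ∧ x ∈ q ∧ q.ncard = 4) ∧ (IsFacet S r ∧ r ∉ E ∧ x ∈ r ∧ r.ncard = 4)

/-- Let `k ≥ 4` and `t ≥ 2 ⌊k/2⌋ + 2`, let `E` be any set of facets with at most `k` vertices and
`K` any set. Suppose that every core vertex is paired, or (if `t ≥ k + 2`) is not in `K` and is
the end of a rung. Then `t` colours suffice. -/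
theorem result (S : Finset E3) (hS : IsPolytope S) (k t : ℕ) (hk : 4 ≤ k)
    (ht : 2 * (k / 2) + 2 ≤ t) (K : Set E3)
    (E : Set (Set E3)) (hE : ∀ F ∈ E, IsFacet S F ∧ F.ncard ≤ k)
    (h : ∀ x ∈ core S k t K, Paired S k t K E x ∨ (k + 2 ≤ t ∧ x ∉ K ∧ RungEnd S k E x)) :
    Colorable S k t := by
  obtain ⟨col, hcol⟩ := Pool.Agent.CY.finalB_16 S hS.1 hS.2 k t hk ht K E hE h
  refine ⟨col, ?_⟩
  rintro F ⟨ℓ, c, h1, rfl, h2⟩ h3
  exact hcol ℓ c h1 h2 h3

end Pool.Agent.Results.MP_b6ecfd_co.PairedCore
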