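import Pool.Agent.Lib.MP_b6ecfd_co.Final16

/-!
Cyclic colourings of 3-polytopes: if every vertex of the core lies on exactly two facets of a
set `E`, and has few cofacial vertices off these two facets, then `k + 2` colours suffice.
-/

set_option autoImplicit false

namespace Pool.Agent.Results.MP_b6ecfd_co.TwoFacetCore

/-- three dimensional space. -/
abbrev E3 := EuclideanSpace ℝ (Fin 3)

/-- `S` is the vertex set of a convex polytope of dimension three. -/
def IsPolytope (S : Finset E3) : Prop :=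
  affineSpan ℝ (S : Set E3) = ⊤ ∧ ∀ x ∈ S, x ∉ convexHull ℝ ((S : Set E3) \ {x})

/-- `F` is (the vertex set of) a facet of the polytope with vertex set `S`. -/
def IsFacet (S : Finset E3) (F : Set E3) : Prop :=
  ∃ (ℓ : E3 →L[ℝ] ℝ) (c : ℝ), (∀ x ∈ S, ℓ x ≤ c) ∧ F = {x : E3 | x ∈ S ∧ ℓ x = c} ∧
    Module.finrank ℝ (vectorSpan ℝ F) = 2

/-- `t` colours suffice: the vertices of every facet with at most `k` vertices differ. -/
def Colorable (S : Finset E3) (k t : ℕ) : Prop :=
  ∃ col : E3 → Fin t, ∀ F : Set E3, IsFacet S F → F.ncard ≤ k → Set.InjOn col F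

/-- `x` and `y` lie on a common facet with at most `k` vertices. -/
def Cofacial (S : Finset E3) (k : ℕ) (x y : E3) : Prop :=
  ∃ F : Set E3, IsFacet S F ∧ F.ncard ≤ k ∧ x ∈ F ∧ y ∈ F

/-- the core: the largest set of vertices each of which is cofacial with at least `t` others of
the set. -/
def core (S : Finset E3) (k t : ℕ) : Set E3 :=
  {x : E3 | ∃ C : Set E3, C ⊆ S ∧ x ∈ C ∧
    ∀ y ∈ C, t ≤ Set.ncard {z : E3 | z ∈ C ∧ z ≠ y ∧ Cofacial S k y z}}

/-- the core vertices other than `x` which are cofacial with `x` and on neither `f` nor `g`. -/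
def outside (S : Finset E3) (k t : ℕ) (x : E3) (f g : Set E3) : Set E3 :=
  {y : E3 | y ∈ core S k t ∧ y ≠ x ∧ Cofacial S k x y ∧ y ∉ f ∧ y ∉ g}

/-- Let `t ≥ k + 2` and let `E` be any set of facets with at most `k` vertices. Suppose that every
core vertex `x` lies on exactly two members `f` and `g` of `E`, and that fewer core vertices are
cofacial with `x` and on neither `f` nor `g` than lie on both `f` and `g`. Then `t` colours
suffice. -/
theorem result (S : Finset E3) (hS : IsPolytope S) (k t : ℕ) (ht : k + 2 ≤ t)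
    (E : Set (Set E3)) (hE : ∀ F ∈ E, IsFacet S F ∧ F.ncard ≤ k)
    (h : ∀ x ∈ core S k t, ∃ f g : Set E3, f ≠ g ∧ {F : Set E3 | F ∈ E ∧ x ∈ F} = {f, g} ∧
      Set.ncard (outside S k t x f g) < Set.ncard {y : E3 | y ∈ core S k t ∧ y ∈ f ∧ y ∈ g}) :
    Colorable S k t := by
  obtain ⟨col, hcol⟩ := Pool.Agent.CY.finalA_16 S hS.1 hS.2 k t ht E hE h
  refine ⟨col, ?_⟩
  rintro F ⟨ℓ, c, h1, rfl, h2⟩ h3
  exact hcol ℓ c h1 h2 h3

end Pool.Agent.Results.MP_b6ecfd_co.TwoFacetCore
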